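import Pool.Agent.Bireg91.Final

namespace Pool.Agent.Results.MP_3a2507_co.EvenCongruentTwo

open Pool.Agent.Bireg91

/-- Q1 holds whenever one side of one of the two multigraphs has an even number `n` of vertices,
the other side of the same multigraph has `k` vertices, and `k ≡ ±2 (mod n)`. -/
theorem result {L1 R1 E1 L2 R2 E2 : Type} [Finite L1] [Finite R1] [Finite E1] [Finite L2]
    [Finite R2] [Finite E2] (u1 : E1 → L1) (v1 : E1 → R1) (u2 : E2 → L2) (v2 : E2 → R2)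
    (hb1 : Biregular u1 v1) (hb2 : Biregular u2 v2)
    (hn : Nat.card L1 * Nat.card R2 = Nat.card L2 * Nat.card R1)
    (hE1 : Nat.card E1 = Nat.card L1 * Nat.card R2)
    (hE2 : Nat.card E2 = Nat.card L1 * Nat.card R2)
    (h : (Even (Nat.card L1) ∧ NearMod 2 (Nat.card L1) (Nat.card R1)) ∨
      (Even (Nat.card R1) ∧ NearMod 2 (Nat.card R1) (Nat.card L1)) ∨
      (Even (Nat.card L2) ∧ NearMod 2 (Nat.card L2) (Nat.card R2)) ∨
      (Even (Nat.card R2) ∧ NearMod 2 (Nat.card R2) (Nat.card L2))) :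
    ∃ ψ : E1 ≃ E2, pairMatrix (u2 ∘ ψ) v1 = Matrix.of (fun _ _ => 1) ∧
      pairMatrix (u1 ∘ ψ.symm) v2 = Matrix.of (fun _ _ => 1) := by
  change HasBijection u1 v1 u2 v2
  have hn' : Nat.card R1 * Nat.card L2 = Nat.card R2 * Nat.card L1 := by
    rw [mul_comm, ← hn, mul_comm]
  rcases h with ⟨e, h⟩ | ⟨e, h⟩ | ⟨e, h⟩ | ⟨e, h⟩
  · exact main_two u1 v1 u2 v2 hb1 hb2 hn hE1 hE2 e h
  · apply HasBijection.swapLR
    refine main_two v1 u1 v2 u2 ⟨hb1.2, hb1.1⟩ ⟨hb2.2, hb2.1⟩ hn' ?_ ?_ e h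
    · rw [hE1, hn, mul_comm]
    · rw [hE2, hn, mul_comm]
  · apply HasBijection.swap12
    refine main_two u2 v2 u1 v1 hb2 hb1 hn.symm ?_ ?_ e h
    · rw [hE2, hn]
    · rw [hE1, hn]
  · apply HasBijection.swap12
    apply HasBijection.swapLR
    refine main_two v2 u2 v1 u1 ⟨hb2.2, hb2.1⟩ ⟨hb1.2, hb1.1⟩ hn'.symm ?_ ?_ e h
    · rw [hE2, mul_comm]
    · rw [hE1, mul_comm]

end Pool.Agent.Results.MP_3a2507_co.EvenCongruentTwo
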